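import Pool.Agent.W169.HF.Defs

/-! # HF-SG: the group property of the heat series -/

set_option autoImplicit false

open Complex MeasureTheory Filter Topology Set
open scoped ComplexConjugate

namespace Pool.Agent.W613.HF

open Pool.Agent.W169.HF

theorem binom (s t : ℝ) (n : ℕ) :
    ∑ p ∈ Finset.HasAntidiagonal.antidiagonal n, s ^ p.1 / (p.1.factorial : ℝ) * (t ^ p.2 / (p.2.factorial : ℝ)) =
      (s + t) ^ n / (n.factorial : ℝ) := by
  rw [(Commute.all s t).add_pow', Finset.sum_div]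
  refine Finset.sum_congr rfl fun p hp => ?_
  rw [Finset.HasAntidiagonal.mem_antidiagonal] at hp
  subst hp
  have h1 : (((p.1 + p.2).choose p.1 : ℕ) : ℝ) * (p.1.factorial : ℝ) * (p.2.factorial : ℝ) =
      ((p.1 + p.2).factorial : ℝ) := by
    have h0 := Nat.choose_mul_factorial_mul_factorial (Nat.le_add_right p.1 p.2)
    rw [Nat.add_sub_cancel_left] at h0
    exact_mod_cast h0
  have h2 : (p.1.factorial : ℝ) ≠ 0 := by positivity
  have h3 : (p.2.factorial : ℝ) ≠ 0 := by positivity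
  have h4 : ((p.1 + p.2).factorial : ℝ) ≠ 0 := by positivity
  rw [nsmul_eq_mul, ← h1]
  rw [← h1] at h4
  have h5 : (((p.1 + p.2).choose p.1 : ℕ) : ℝ) ≠ 0 := by
    intro h
    rw [h] at h4
    simp at h4
  field_simp

theorem sg_of (h1 : S_DER) (h2 : S_HS) : S_SG := by
  intro f hf s t
  funext z
  -- a small δ
  set δ : ℝ := 1 / (60 * (|s| + |t| + 1)) with hδ
  have hδ0 : 0 < δ := by positivity
  have hq : 30 * δ * (|s| + |t|) ≤ 1 / 2 := by
    rw [hδ]
    rw [show 30 * (1 / (60 * (|s| + |t| + 1))) * (|s| + |t|) =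
      (1 / 2) * ((|s| + |t|) / (|s| + |t| + 1)) by field_simp; ring]
    have h3 : (|s| + |t|) / (|s| + |t| + 1) ≤ 1 := by
      rw [div_le_one (by positivity)]
      linarith
    linarith
  obtain ⟨K, hK, hder⟩ := h1 f hf δ hδ0
  set F : ℕ × ℕ → ℂ := fun p => ((s ^ p.1 / (p.1.factorial : ℝ) : ℝ) : ℂ) *
    (((t ^ p.2 / (p.2.factorial : ℝ) : ℝ) : ℂ) * iteratedDeriv (2 * p.1 + 2 * p.2) f z) with hF
  set E : ℝ := Real.exp (2 * δ * ‖z‖ ^ 2) with hE
  -- majorant
  set G : ℕ × ℕ → ℝ := fun p => |s| ^ p.1 / (p.1.factorial : ℝ) *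
    (|t| ^ p.2 / (p.2.factorial : ℝ)) * (K * ((p.1 + p.2).factorial : ℝ) *
      (30 * δ) ^ (p.1 + p.2) * E) with hG
  have hG0 : ∀ p, 0 ≤ G p := fun p => by positivity
  have hFG : ∀ p, ‖F p‖ ≤ G p := by
    intro p
    simp only [hF, hG]
    rw [norm_mul, norm_mul, Complex.norm_real, Complex.norm_real, Real.norm_eq_abs,
      Real.norm_eq_abs, abs_div, abs_div, abs_pow, abs_pow, Nat.abs_cast, Nat.abs_cast,
      ← mul_assoc]
    refine mul_le_mul_of_nonneg_left ?_ (by positivity)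
    have := hder (p.1 + p.2) z
    rwa [show 2 * (p.1 + p.2) = 2 * p.1 + 2 * p.2 by ring] at this
  have hGs : Summable G := by
    rw [← (Finset.HasAntidiagonal.sigmaAntidiagonalEquivProd (A := ℕ)).summable_iff]
    refine (summable_sigma_of_nonneg (f := G ∘
      (Finset.HasAntidiagonal.sigmaAntidiagonalEquivProd (A := ℕ))) (fun x => hG0 _)).2
      ⟨fun n => Summable.of_finite, ?_⟩
    have e : ∀ n : ℕ, ∑' (y : (Finset.HasAntidiagonal.antidiagonal n)),
        (G ∘ (Finset.HasAntidiagonal.sigmaAntidiagonalEquivProd (A := ℕ))) ⟨n, y⟩ =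
        K * E * (30 * δ * (|s| + |t|)) ^ n := by
      intro n
      rw [tsum_fintype]
      have e1 : ∑ b : (Finset.HasAntidiagonal.antidiagonal n),
          (G ∘ (Finset.HasAntidiagonal.sigmaAntidiagonalEquivProd (A := ℕ))) ⟨n, b⟩ =
          ∑ p ∈ Finset.HasAntidiagonal.antidiagonal n, G p :=
        Finset.sum_coe_sort (Finset.HasAntidiagonal.antidiagonal n) G
      rw [e1]
      have e2 : ∀ p ∈ Finset.HasAntidiagonal.antidiagonal n, G p = |s| ^ p.1 / (p.1.factorial : ℝ) *
          (|t| ^ p.2 / (p.2.factorial : ℝ)) * (K * (n.factorial : ℝ) * (30 * δ) ^ n * E) := by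
        intro p hp
        rw [Finset.HasAntidiagonal.mem_antidiagonal] at hp
        simp only [hG]
        rw [hp]
      rw [Finset.sum_congr rfl e2, ← Finset.sum_mul, binom, mul_pow (30 * δ)]
      have h4 : (n.factorial : ℝ) ≠ 0 := by positivity
      generalize (|s| + |t|) ^ n = a
      generalize (30 * δ) ^ n = c
      field_simp
    simp_rw [e]
    refine Summable.mul_left _ (summable_geometric_of_lt_one (by positivity) (by linarith))
  have hFs : Summable F := Summable.of_norm_bounded hGs hFG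
  -- the left side
  have hL : hs s (hs t f) z = ∑' j : ℕ, ∑' k : ℕ, F (j, k) := by
    unfold hs
    refine tsum_congr fun j => ?_
    have h3 := (h2 f hf t).2.2 j z
    unfold hs at h3
    rw [h3, ← tsum_mul_left]
  rw [hL, ← hFs.tsum_prod, ← (Finset.HasAntidiagonal.sigmaAntidiagonalEquivProd (A := ℕ)).tsum_eq F]
  have hFs' : Summable (fun c => F ((Finset.HasAntidiagonal.sigmaAntidiagonalEquivProd (A := ℕ)) c)) :=
    (Finset.HasAntidiagonal.sigmaAntidiagonalEquivProd (A := ℕ)).summable_iff.2 hFs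
  rw [hFs'.tsum_sigma]
  unfold hs
  refine tsum_congr fun n => ?_
  rw [tsum_fintype]
  have e1 : ∑ b : (Finset.HasAntidiagonal.antidiagonal n),
      F ((Finset.HasAntidiagonal.sigmaAntidiagonalEquivProd (A := ℕ)) ⟨n, b⟩) =
      ∑ p ∈ Finset.HasAntidiagonal.antidiagonal n, F p :=
    Finset.sum_coe_sort (Finset.HasAntidiagonal.antidiagonal n) F
  rw [e1]
  have e2 : ∀ p ∈ Finset.HasAntidiagonal.antidiagonal n, F p =
      ((s ^ p.1 / (p.1.factorial : ℝ) * (t ^ p.2 / (p.2.factorial : ℝ)) : ℝ) : ℂ) *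
        iteratedDeriv (2 * n) f z := by
    intro p hp
    rw [Finset.HasAntidiagonal.mem_antidiagonal] at hp
    simp only [hF]
    rw [← hp, show 2 * (p.1 + p.2) = 2 * p.1 + 2 * p.2 by ring]
    push_cast
    ring
  rw [Finset.sum_congr rfl e2, ← Finset.sum_mul, ← Complex.ofReal_sum, binom]

end Pool.Agent.W613.HF
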