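import Pool.Agent.W169.HF.Defs
import Pool.Agent.H353R6.E14

/-! # HF-STEP: one step of the flow preserves the zero-free half-plane -/

set_option autoImplicit false

open Complex MeasureTheory Filter Topology Set
open scoped ComplexConjugate

namespace Pool.Agent.W613.HF

open Pool.Agent.W169.HF H353.E

/-- a growth function for a slow function -/
theorem slow_growth {f : ℂ → ℂ} (hf : Slow f) : ∃ E : ℝ → ℝ, Monotone E ∧
    Tendsto (fun ρ => E ρ / ρ ^ 2) atTop (𝓝 0) ∧ ∀ s, ‖f s‖ ≤ Real.exp (E ‖s‖) := by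
  set S : ℝ → Set ℝ := fun ρ => {x | ∃ z : ℂ, ‖z‖ ≤ ρ ∧ x = Real.log (1 + ‖f z‖)} with hS
  have hpos : ∀ z : ℂ, 0 ≤ Real.log (1 + ‖f z‖) := fun z =>
    Real.log_nonneg (by linarith [norm_nonneg (f z)])
  have hbound : ∀ δ : ℝ, 0 < δ → ∃ K : ℝ, 0 < K ∧ ∀ ρ, ∀ x ∈ S ρ, x ≤ K + δ * ρ ^ 2 := by
    intro δ hδ
    obtain ⟨K, hK, hb⟩ := hf.2 δ hδ
    refine ⟨Real.log (1 + K), Real.log_pos (by linarith), ?_⟩
    rintro ρ x ⟨z, hz, rfl⟩
    have h1 : ‖f z‖ ≤ K * Real.exp (δ * ρ ^ 2) := by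
      refine (hb z).trans (mul_le_mul_of_nonneg_left (Real.exp_le_exp.2 ?_) hK.le)
      exact mul_le_mul_of_nonneg_left (pow_le_pow_left₀ (norm_nonneg z) hz 2) hδ.le
    have h2 : 1 ≤ Real.exp (δ * ρ ^ 2) := Real.one_le_exp (by positivity)
    have h3 : 1 + ‖f z‖ ≤ (1 + K) * Real.exp (δ * ρ ^ 2) := by linarith
    calc Real.log (1 + ‖f z‖) ≤ Real.log ((1 + K) * Real.exp (δ * ρ ^ 2)) :=
          Real.log_le_log (by positivity) h3
      _ = Real.log (1 + K) + δ * ρ ^ 2 := by
          rw [Real.log_mul (by positivity) (by positivity), Real.log_exp]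
  have hbdd : ∀ ρ, BddAbove (S ρ) := by
    intro ρ
    obtain ⟨K, hK, hb⟩ := hbound 1 one_pos
    exact ⟨_, fun x hx => hb ρ x hx⟩
  have hE0 : ∀ ρ, 0 ≤ sSup (S ρ) := fun ρ => Real.sSup_nonneg (by
    rintro x ⟨z, -, rfl⟩
    exact hpos z)
  refine ⟨fun ρ => sSup (S ρ), ?_, ?_, ?_⟩
  · intro ρ ρ' h
    rcases (S ρ).eq_empty_or_nonempty with h1 | h1
    · change sSup (S ρ) ≤ sSup (S ρ')
      rw [h1, Real.sSup_empty]
      exact hE0 ρ'
    · refine csSup_le_csSup (hbdd ρ') h1 ?_
      rintro x ⟨z, hz, rfl⟩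
      exact ⟨z, hz.trans h, rfl⟩
  · rw [Metric.tendsto_atTop]
    intro ε hε
    obtain ⟨K, hK, hb⟩ := hbound (ε / 4) (by positivity)
    refine ⟨max 1 (4 * K / ε), fun ρ hρ => ?_⟩
    have h1 : 1 ≤ ρ := (le_max_left _ _).trans hρ
    have h2 : 4 * K / ε ≤ ρ := (le_max_right _ _).trans hρ
    rw [Real.dist_eq, sub_zero, abs_of_nonneg (div_nonneg (hE0 ρ) (by positivity)),
      div_lt_iff₀ (by positivity)]
    have h3 : sSup (S ρ) ≤ K + ε / 4 * ρ ^ 2 := by
      refine csSup_le ⟨_, (0 : ℂ), ?_, rfl⟩ fun x hx => hb ρ x hx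
      rw [norm_zero]
      linarith
    have h4 : K ≤ ε / 4 * ρ ^ 2 := by
      rw [div_le_iff₀ hε] at h2
      have : ρ * ε ≤ ρ ^ 2 * ε := by
        refine mul_le_mul_of_nonneg_right ?_ hε.le
        nlinarith
      linarith
    have h5 : 0 < ε * ρ ^ 2 := by positivity
    linarith
  · intro s
    have h1 : Real.log (1 + ‖f s‖) ≤ sSup (S ‖s‖) := le_csSup (hbdd _) ⟨s, le_rfl, rfl⟩
    calc ‖f s‖ ≤ 1 + ‖f s‖ := by linarith
      _ = Real.exp (Real.log (1 + ‖f s‖)) := (Real.exp_log (by positivity)).symm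
      _ ≤ _ := Real.exp_le_exp.2 h1

/-- the logarithmic derivative has nonnegative real part on the right -/
theorem re_nonneg {b : ℝ} {f : ℂ → ℂ} (h : GLc b f) (hne0 : ∃ z, f z ≠ 0) {s : ℂ}
    (hs : 1 / 2 + b < s.re) : 0 ≤ (deriv f s / f s).re := by
  obtain ⟨ε, hfe⟩ := h.fe
  obtain ⟨E, hE, hEt, hb⟩ := h.slow
  obtain ⟨y, hy⟩ := exists_ne_line h.diff hne0
  set c : ℂ := 1 / 2 + y * I with hc
  have hcc : c + conj c = 1 := by
    apply Complex.ext
    · simp [hc]
      norm_num
    · simp [hc]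
  set F : ℂ → ℂ := fun w => f (c + w) with hF
  have hFd : Differentiable ℂ F := h.diff.comp (by fun_prop)
  have hdF : ∀ w, deriv F w = deriv f (c + w) := fun w => by
    simp only [hF]
    exact deriv_comp_const_add f c w
  have hm := re_logderiv_nonneg (F := F) hFd (by simpa [hF] using hy) (ε := ε) (fun w => ?_)
    (E := fun ρ => E (ρ + ‖c‖)) (fun a b hab => hE (by linarith)) (tend_shift hEt ‖c‖)
    (fun w => (hb (c + w)).trans (Real.exp_le_exp.mpr (hE (by linarith [norm_add_le c w]))))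
    (b := b) (fun u hu => ?_) (w := s - c) ?_
  · rw [hdF] at hm
    simp only [hF, add_sub_cancel] at hm
    exact hm
  · simp only [hF]
    rw [hfe (c + w)]
    congr 3
    rw [map_add]
    linear_combination -hcc
  · have h1 := h.zer (c + u) hu
    rw [add_re, hc] at h1
    simp at h1
    linarith
  · rw [sub_re, hc]
    simp
    linarith

theorem first {b : ℝ} {f : ℂ → ℂ} (h : Cl b f) (hne : ∃ z, f z ≠ 0) (β : ℝ) :
    (∀ z, f z + (β : ℂ) * I * deriv f z = 0) ∨
      Cl b (fun z => f z + (β : ℂ) * I * deriv f z) := by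
  have hd : Differentiable ℂ f := h.slow.1
  have hdd : Differentiable ℂ (deriv f) := hd.deriv
  have hg : Differentiable ℂ (fun z => f z + (β : ℂ) * I * deriv f z) :=
    hd.add (hdd.const_mul _)
  obtain ⟨ε, hε, hfe⟩ := h.fe
  by_cases hz : ∃ s : ℂ, f s + (β : ℂ) * I * deriv f s = 0 ∧ 1 / 2 + b < s.re
  · left
    obtain ⟨s, hs0, hs⟩ := hz
    have hfs : f s ≠ 0 := fun h1 => absurd (h.zer s h1) (not_le.2 hs)
    have hβ : (β : ℂ) ≠ 0 := by
      intro h1
      rw [h1, zero_mul, zero_mul, add_zero] at hs0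
      exact hfs hs0
    have hβr : β ≠ 0 := by exact_mod_cast hβ
    obtain ⟨E, hE, hEt, hEb⟩ := slow_growth h.slow
    have hGL : GLc b f := ⟨hd, ⟨ε, hfe⟩, ⟨E, hE, hEt, hEb⟩, h.zer⟩
    set U : Set ℂ := {z | 1 / 2 + b < z.re} with hU
    have hUo : IsOpen U := isOpen_lt continuous_const continuous_re
    have hUc : IsPreconnected U := (convex_halfSpace_re_gt (1 / 2 + b)).isPreconnected
    have hFU : ∀ z ∈ U, f z ≠ 0 := fun z hzU h1 => absurd (h.zer z h1) (not_le.2 hzU)
    have hq : AnalyticOnNhd ℂ (fun z => deriv f z / f z) U := by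
      apply DifferentiableOn.analyticOnNhd _ hUo
      exact hdd.differentiableOn.div hd.differentiableOn hFU
    have hqs : deriv f s / f s = ((1 / β : ℝ) : ℂ) * I := by
      rw [div_eq_iff hfs]
      push_cast
      have h1 : f s = -((β : ℂ) * I * deriv f s) := by linear_combination hs0
      rw [h1]
      field_simp
      linear_combination (deriv f s) * I_sq
    rcases hq.is_constant_or_isOpen hUc with ⟨c, hc⟩ | ho
    · have hc0 : c = ((1 / β : ℝ) : ℂ) * I := by rw [← hc s hs, hqs]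
      have h1 : ∀ z ∈ U, f z + (β : ℂ) * I * deriv f z = 0 := fun z hzU => by
        have h2 := hc z hzU
        rw [hc0, div_eq_iff (hFU z hzU)] at h2
        rw [h2]
        push_cast
        field_simp
        linear_combination (f z) * I_sq
      have hA : AnalyticOnNhd ℂ (fun z => f z + (β : ℂ) * I * deriv f z) univ :=
        fun x _ => hg.analyticAt x
      have h2 : (fun z => f z + (β : ℂ) * I * deriv f z) =ᶠ[𝓝 s] fun _ => 0 := by
        filter_upwards [hUo.mem_nhds hs] with z hzU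
        exact h1 z hzU
      intro z
      exact hA.eqOn_zero_of_preconnected_of_eventuallyEq_zero isPreconnected_univ (mem_univ s) h2
        (mem_univ z)
    · exfalso
      have h1 := ho U subset_rfl hUo
      have h2 : ((1 / β : ℝ) : ℂ) * I ∈ (fun z => deriv f z / f z) '' U := ⟨s, hs, hqs⟩
      obtain ⟨δ, hδ, hball⟩ := Metric.isOpen_iff.mp h1 _ h2
      have h3 : ((1 / β : ℝ) : ℂ) * I - ((δ / 2 : ℝ) : ℂ) ∈
          Metric.ball (((1 / β : ℝ) : ℂ) * I) δ := by
        rw [Metric.mem_ball, dist_eq_norm, sub_sub_cancel_left, norm_neg, Complex.norm_real,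
          Real.norm_eq_abs, abs_of_pos (by positivity)]
        linarith
      obtain ⟨z, hzU, hz1⟩ := hball h3
      have h4 := re_nonneg hGL hne (s := z) hzU
      simp only at hz1
      rw [hz1] at h4
      simp at h4
      linarith
  · right
    push Not at hz
    refine ⟨⟨hg, fun δ hδ => ?_⟩, ⟨ε, hε, fun s => ?_⟩, fun s hs => hz s hs⟩
    · obtain ⟨K, hK, hb⟩ := h.slow.2 (δ / 2) (by positivity)
      refine ⟨K + |β| * (K * Real.exp δ), by positivity, fun z => ?_⟩
      have h1 : ‖f z‖ ≤ K * Real.exp (δ * ‖z‖ ^ 2) := by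
        refine (hb z).trans (mul_le_mul_of_nonneg_left (Real.exp_le_exp.2 ?_) hK.le)
        have : 0 ≤ δ * ‖z‖ ^ 2 := by positivity
        linarith
      have h2 : ‖deriv f z‖ ≤ K * Real.exp δ * Real.exp (δ * ‖z‖ ^ 2) := by
        have h3 := Complex.norm_deriv_le_of_forall_mem_sphere_norm_le (c := z) (R := 1)
          (C := K * Real.exp δ * Real.exp (δ * ‖z‖ ^ 2)) (f := f) one_pos hd.diffContOnCl
          (fun w hw => ?_)
        · simpa using h3
        · refine (hb w).trans ?_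
          rw [mul_assoc, ← Real.exp_add]
          refine mul_le_mul_of_nonneg_left (Real.exp_le_exp.2 ?_) hK.le
          rw [mem_sphere_iff_norm] at hw
          have h4 : ‖w‖ ≤ ‖z‖ + 1 := by
            have := norm_add_le (w - z) z
            rw [sub_add_cancel, hw] at this
            linarith
          have h5 : ‖w‖ ^ 2 ≤ (‖z‖ + 1) ^ 2 := pow_le_pow_left₀ (norm_nonneg w) h4 2
          have h6 : (‖z‖ + 1) ^ 2 ≤ 2 * ‖z‖ ^ 2 + 2 := by nlinarith [sq_nonneg (‖z‖ - 1)]
          nlinarith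
      calc ‖f z + (β : ℂ) * I * deriv f z‖ ≤ ‖f z‖ + ‖(β : ℂ) * I * deriv f z‖ := norm_add_le _ _
        _ = ‖f z‖ + |β| * ‖deriv f z‖ := by
            rw [norm_mul, norm_mul, Complex.norm_real, Complex.norm_I, mul_one, Real.norm_eq_abs]
        _ ≤ K * Real.exp (δ * ‖z‖ ^ 2) + |β| * (K * Real.exp δ * Real.exp (δ * ‖z‖ ^ 2)) :=
            add_le_add h1 (mul_le_mul_of_nonneg_left h2 (abs_nonneg β))
        _ = _ := by ring
    · have h1 := hfe s
      have h2 := fe_deriv hd hfe s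
      change f s + (β : ℂ) * I * deriv f s =
        ε * conj (f (1 - conj s) + (β : ℂ) * I * deriv f (1 - conj s))
      rw [h2, map_add, map_mul, map_mul, conj_ofReal, conj_I]
      rw [h1]
      ring

theorem step_of : S_STEP := by
  intro b f hf hne α hα
  set β : ℝ := Real.sqrt α with hβ
  have hβ2 : (β : ℂ) * β = (α : ℂ) := by
    rw [← Complex.ofReal_mul, Real.mul_self_sqrt hα]
  have hd : Differentiable ℂ f := hf.slow.1
  have hdd : Differentiable ℂ (deriv f) := hd.deriv
  have hstep : ∀ z, step α f z =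
      (f z + ((-β : ℝ) : ℂ) * I * deriv f z) +
        (β : ℂ) * I * deriv (fun z => f z + ((-β : ℝ) : ℂ) * I * deriv f z) z := by
    intro z
    have h1 : deriv (fun z => f z + ((-β : ℝ) : ℂ) * I * deriv f z) z =
        deriv f z + ((-β : ℝ) : ℂ) * I * deriv (deriv f) z := by
      have h2 := ((hd z).hasDerivAt.add ((hdd z).hasDerivAt.const_mul (((-β : ℝ) : ℂ) * I))).deriv
      exact h2
    rw [h1]
    unfold step
    rw [show (2 : ℕ) = 1 + 1 from rfl, iteratedDeriv_succ, iteratedDeriv_one, ← hβ2]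
    push_cast
    linear_combination (β * β * deriv (deriv f) z) * I_sq
  rcases first hf hne (-β) with h0 | h1
  · left
    intro z
    have h2 : (fun z => f z + ((-β : ℝ) : ℂ) * I * deriv f z) = fun _ => 0 := funext h0
    rw [hstep, h2, h0 z, deriv_const, mul_zero, add_zero]
  · by_cases hne1 : ∃ z, f z + ((-β : ℝ) : ℂ) * I * deriv f z ≠ 0
    · rcases first h1 hne1 β with h2 | h2
      · left
        intro z
        rw [hstep]
        exact h2 z
      · right
        have h3 : step α f = fun z => (f z + ((-β : ℝ) : ℂ) * I * deriv f z) +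
            (β : ℂ) * I * deriv (fun z => f z + ((-β : ℝ) : ℂ) * I * deriv f z) z := funext hstep
        rw [h3]
        exact h2
    · left
      push Not at hne1
      intro z
      have h2 : (fun z => f z + ((-β : ℝ) : ℂ) * I * deriv f z) = fun _ => 0 := funext hne1
      rw [hstep, h2, hne1 z, deriv_const, mul_zero, add_zero]

end Pool.Agent.W613.HF
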